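import Pool.Agent.H983R2.ONJ.Defs
import Pool.Agent.H5R2.ON.Basic
import Pool.Agent.H965R2.ON3.Gib2

/-! # Task GIB2: consistency of the finite volume Gibbs states for an arbitrary continuous
energy `H` (port of `Pool.Agent.H965R2.ON3.Gib2`), and comparison of two energies -/

set_option autoImplicit false

noncomputable section

namespace Pool.Agent.H983R2.ONJ

open MeasureTheory Pool.Agent.H5R2.ON Pool.Agent.H717R2.ON3

namespace Aux348

theorem cont_w {N L : ℕ} {H : Conf N L → ℝ} (hH : Continuous H) :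
    Continuous (fun S : Conf N L => Real.exp (H S)) :=
  Real.continuous_exp.comp hH

theorem int_num {N L : ℕ} [NeZero L] {H : Conf N L → ℝ} (hH : Continuous H)
    (Λ : Finset (Tor L)) (η : Conf N L)
    {F : Conf N L → ℝ} (hF : Measurable F) (B : ℝ) (hB : ∀ S, |F S| ≤ B) :
    Integrable (fun S => F (splice Λ S η) * Real.exp (H (splice Λ S η)))
      (prior N L) := by
  obtain ⟨C, hC⟩ := gib2_bdd (cont_w (N := N) (L := L) hH)
  have hs := (gib2_continuous_splice Λ η).measurable
  refine gib2_integrable ((hF.comp hs).mul ((cont_w hH).measurable.comp hs)) (B * C)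
    fun S => ?_
  rw [abs_mul]
  exact mul_le_mul (hB _) (hC _) (abs_nonneg _) ((abs_nonneg _).trans (hB (splice Λ S η)))

theorem Z_pos {N L : ℕ} [NeZero L] (hN : N ≠ 0) {H : Conf N L → ℝ} (hH : Continuous H)
    (Λ : Finset (Tor L)) (η : Conf N L) :
    0 < ∫ S, Real.exp (H (splice Λ S η)) ∂(prior N L) := by
  have := prior_isProbabilityMeasure N L hN
  exact integral_exp_pos (integrable_prior N L
    ((cont_w hH).comp (gib2_continuous_splice Λ η)))

end Aux348

open Aux348

theorem gH_influence {N L : ℕ} [NeZero L] (hN : N ≠ 0) {H : Conf N L → ℝ}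
    (hH : Continuous H) {Λ' Λ : Finset (Tor L)}
    (h : Λ' ⊆ Λ) (η : Conf N L) {F G : Conf N L → ℝ} (hF : Continuous F) (hG : Measurable G)
    (B : ℝ) (hGB : ∀ S, |G S| ≤ B)
    (hGloc : ∀ S S' : Conf N L, (∀ x, x ∉ Λ' → S x = S' x) → G S = G S')
    (m : ℝ) (hm : ∀ η' : Conf N L, |gH H Λ' η' F| ≤ m) :
    |gH H Λ η (fun S => G S * F S)| ≤ m * gH H Λ η (fun S => |G S|) := by
  obtain ⟨CF, hCF⟩ := gib2_bdd hF
  obtain ⟨C, hC⟩ := gib2_bdd (cont_w hH)
  have hs := (gib2_continuous_splice (N := N) Λ η).measurable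
  have hZ := Z_pos hN hH Λ η
  set Z := ∫ S, Real.exp (H (splice Λ S η)) ∂(prior N L) with hZdef
  have hGsp : ∀ S' S : Conf N L, G (splice Λ' S' S) = G S := fun S' S =>
    hGloc _ _ fun x hx => by simp [splice, hx]
  -- first numerator
  have hm1 : Measurable (fun S : Conf N L => (G (splice Λ S η) * F (splice Λ S η)) *
      Real.exp (H (splice Λ S η))) :=
    ((hG.comp hs).mul (hF.measurable.comp hs)).mul ((cont_w hH).measurable.comp hs)
  have hb1 : ∀ S : Conf N L, |(G (splice Λ S η) * F (splice Λ S η)) *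
      Real.exp (H (splice Λ S η))| ≤ (B * CF) * C := fun S => by
    rw [abs_mul, abs_mul]
    have h1 : 0 ≤ B := (abs_nonneg _).trans (hGB (splice Λ S η))
    have h2 : 0 ≤ CF := (abs_nonneg _).trans (hCF (splice Λ S η))
    exact mul_le_mul (mul_le_mul (hGB _) (hCF _) (abs_nonneg _) h1) (hC _) (abs_nonneg _)
      (mul_nonneg h1 h2)
  obtain ⟨e1, -⟩ := gib2_resample hN Λ' hm1 _ hb1
  -- second numerator
  have hm2 : Measurable (fun S : Conf N L => |G (splice Λ S η)| *
      Real.exp (H (splice Λ S η))) :=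
    ((hG.comp hs).abs).mul ((cont_w hH).measurable.comp hs)
  have hb2 : ∀ S : Conf N L, |(|G (splice Λ S η)| *
      Real.exp (H (splice Λ S η)))| ≤ B * C := fun S => by
    rw [abs_mul, abs_abs]
    have h1 : 0 ≤ B := (abs_nonneg _).trans (hGB (splice Λ S η))
    exact mul_le_mul (hGB _) (hC _) (abs_nonneg _) h1
  obtain ⟨e2, i2⟩ := gib2_resample hN Λ' hm2 _ hb2
  -- rewrite the inner integrals
  have r1 : ∀ S : Conf N L, ∫ S', (G (splice Λ (splice Λ' S' S) η) *
      F (splice Λ (splice Λ' S' S) η)) * Real.exp (H (splice Λ (splice Λ' S' S) η))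
        ∂(prior N L) =
      G (splice Λ S η) * ((gH H Λ' (splice Λ S η) F) *
        ∫ S', Real.exp (H (splice Λ' S' (splice Λ S η))) ∂(prior N L)) := by
    intro S
    have hZ' := Z_pos hN hH Λ' (splice Λ S η)
    unfold gH
    rw [div_mul_cancel₀ _ hZ'.ne', ← integral_const_mul]
    congr 1
    funext S'
    rw [gib2_splice h, hGsp]
    ring
  have r2 : ∀ S : Conf N L, ∫ S', |G (splice Λ (splice Λ' S' S) η)| *
      Real.exp (H (splice Λ (splice Λ' S' S) η)) ∂(prior N L) =
      |G (splice Λ S η)| *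
        ∫ S', Real.exp (H (splice Λ' S' (splice Λ S η))) ∂(prior N L) := by
    intro S
    rw [← integral_const_mul]
    congr 1
    funext S'
    rw [gib2_splice h, hGsp]
  have hnum : |∫ S, (G (splice Λ S η) * F (splice Λ S η)) *
      Real.exp (H (splice Λ S η)) ∂(prior N L)| ≤
      m * ∫ S, |G (splice Λ S η)| * Real.exp (H (splice Λ S η)) ∂(prior N L) := by
    rw [e1, e2, ← integral_const_mul, ← Real.norm_eq_abs]
    refine norm_integral_le_of_norm_le (i2.const_mul m) (Filter.Eventually.of_forall fun S => ?_)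
    rw [r1 S, r2 S, Real.norm_eq_abs, abs_mul, abs_mul]
    have hZ' := Z_pos hN hH Λ' (splice Λ S η)
    rw [abs_of_pos hZ']
    calc |G (splice Λ S η)| * (|gH H Λ' (splice Λ S η) F| *
          ∫ S', Real.exp (H (splice Λ' S' (splice Λ S η))) ∂(prior N L))
        ≤ |G (splice Λ S η)| * (m *
          ∫ S', Real.exp (H (splice Λ' S' (splice Λ S η))) ∂(prior N L)) :=
          mul_le_mul_of_nonneg_left (mul_le_mul_of_nonneg_right (hm _) hZ'.le) (abs_nonneg _)
      _ = _ := by ring
  show |(∫ S, (G (splice Λ S η) * F (splice Λ S η)) *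
      Real.exp (H (splice Λ S η)) ∂(prior N L)) / Z| ≤
    m * ((∫ S, |G (splice Λ S η)| * Real.exp (H (splice Λ S η)) ∂(prior N L)) / Z)
  rw [abs_div, abs_of_pos hZ, ← mul_div_assoc]
  exact div_le_div_of_nonneg_right hnum hZ.le

theorem gH_const {N L : ℕ} [NeZero L] (hN : N ≠ 0) {H : Conf N L → ℝ}
    (hH : Continuous H) (Λ : Finset (Tor L))
    (η : Conf N L) (c : ℝ) : gH H Λ η (fun _ => c) = c := by
  have hZ := Z_pos hN hH Λ η
  unfold gH
  rw [integral_const_mul, mul_div_assoc, div_self hZ.ne', mul_one]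

theorem gH_mono {N L : ℕ} [NeZero L] (hN : N ≠ 0) {H : Conf N L → ℝ}
    (hH : Continuous H) (Λ : Finset (Tor L))
    (η : Conf N L) {F G : Conf N L → ℝ} (hF : Measurable F) (hG : Measurable G) (B : ℝ)
    (hFB : ∀ S, |F S| ≤ B) (hGB : ∀ S, |G S| ≤ B) (h : ∀ S, F S ≤ G S) :
    gH H Λ η F ≤ gH H Λ η G := by
  have hZ := Z_pos hN hH Λ η
  unfold gH
  refine div_le_div_of_nonneg_right ?_ hZ.le
  exact integral_mono (int_num hH Λ η hF B hFB) (int_num hH Λ η hG B hGB)
    fun S => mul_le_mul_of_nonneg_right (h _) (Real.exp_pos _).le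

theorem gH_add {N L : ℕ} [NeZero L] (hN : N ≠ 0) {H : Conf N L → ℝ}
    (hH : Continuous H) (Λ : Finset (Tor L))
    (η : Conf N L) {F G : Conf N L → ℝ} (hF : Measurable F) (hG : Measurable G) (B : ℝ)
    (hFB : ∀ S, |F S| ≤ B) (hGB : ∀ S, |G S| ≤ B) :
    gH H Λ η (fun S => F S + G S) = gH H Λ η F + gH H Λ η G := by
  unfold gH
  rw [← add_div, ← integral_add (int_num hH Λ η hF B hFB) (int_num hH Λ η hG B hGB)]
  congr 2
  funext S
  ring

theorem gH_smul {N L : ℕ} [NeZero L] (H : Conf N L → ℝ) (Λ : Finset (Tor L))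
    (η : Conf N L) (c : ℝ) (F : Conf N L → ℝ) :
    gH H Λ η (fun S => c * F S) = c * gH H Λ η F := by
  unfold gH
  rw [← mul_div_assoc, ← integral_const_mul]
  congr 2
  funext S
  ring

theorem continuous_pS {N L : ℕ} [NeZero L] (c : Tor L × Tor L → ℝ) :
    Continuous (pS c : Conf N L → ℝ) := by
  unfold pS
  refine continuous_finset_sum _ fun e _ => continuous_const.mul ?_
  exact (continuous_subtype_val.comp (continuous_apply e.1)).inner
    (continuous_subtype_val.comp (continuous_apply e.2))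

theorem continuous_enG {N L : ℕ} {ι : Type} [Fintype ι] (G : Gr (Tor L) ι) :
    Continuous (enG G : Conf N L → ℝ) := by
  unfold enG
  refine continuous_finset_sum _ fun e _ => ?_
  exact (continuous_subtype_val.comp (continuous_apply (G.s e))).inner
    (continuous_subtype_val.comp (continuous_apply (G.t e)))

/-- change of the energy -/
theorem gH_compare {N L : ℕ} [NeZero L] (hN : N ≠ 0) {H H' : Conf N L → ℝ}
    (hH : Continuous H) (hH' : Continuous H') (Λ : Finset (Tor L)) (η : Conf N L) (κ δ : ℝ)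
    (hδ : ∀ S : Conf N L, |H (splice Λ S η) - H' (splice Λ S η) - κ| ≤ δ)
    {F : Conf N L → ℝ} (hF : Measurable F) (hF1 : ∀ S, |F S| ≤ 1) :
    |gH H Λ η F - gH H' Λ η F| ≤ Real.exp (2 * δ) - 1 := by
  have hprob := prior_isProbabilityMeasure N L hN
  set u : Conf N L → ℝ := fun S => Real.exp (H (splice Λ S η) - H' (splice Λ S η) - κ) with hu
  set w : Conf N L → ℝ := fun S => Real.exp (H' (splice Λ S η)) with hw
  set f : Conf N L → ℝ := fun S => F (splice Λ S η) with hf
  have hsplit : ∀ S, Real.exp (H (splice Λ S η)) = Real.exp κ * (u S * w S) := by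
    intro S
    rw [hu, hw]
    simp only
    rw [← Real.exp_add, ← Real.exp_add]
    congr 1; ring
  have hsc := gib2_continuous_splice (N := N) Λ η
  have huc : Continuous u := by
    rw [hu]
    exact Real.continuous_exp.comp (((hH.comp hsc).sub (hH'.comp hsc)).sub continuous_const)
  have hwc : Continuous w := by
    rw [hw]
    exact Real.continuous_exp.comp (hH'.comp hsc)
  have hfm : Measurable f := hF.comp hsc.measurable
  have hf1 : ∀ S, |f S| ≤ 1 := fun S => hF1 _
  have hwpos : ∀ S, 0 < w S := fun S => Real.exp_pos _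
  have hupos : ∀ S, 0 < u S := fun S => Real.exp_pos _
  have hul : ∀ S, Real.exp (-δ) ≤ u S := fun S =>
    Real.exp_le_exp.2 (by have := (abs_le.1 (hδ S)).1; linarith)
  have huu : ∀ S, u S ≤ Real.exp δ := fun S =>
    Real.exp_le_exp.2 (abs_le.1 (hδ S)).2
  obtain ⟨Cw, hCw⟩ := gib2_bdd hwc
  obtain ⟨Cu, hCu⟩ := gib2_bdd huc
  have hwi : Integrable w (prior N L) := gib2_integrable hwc.measurable Cw hCw
  have huwi : Integrable (fun S => u S * w S) (prior N L) :=
    gib2_integrable (huc.mul hwc).measurable (Cu * Cw) fun S => by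
      rw [abs_mul]
      exact mul_le_mul (hCu S) (hCw S) (abs_nonneg _) ((abs_nonneg _).trans (hCu S))
  have hfwi : Integrable (fun S => f S * w S) (prior N L) :=
    gib2_integrable (hfm.mul hwc.measurable) (1 * Cw) fun S => by
      rw [abs_mul]
      exact mul_le_mul (hf1 S) (hCw S) (abs_nonneg _) zero_le_one
  have hfuwi : Integrable (fun S => f S * (u S * w S)) (prior N L) :=
    gib2_integrable (hfm.mul (huc.mul hwc).measurable) (1 * (Cu * Cw)) fun S => by
      rw [abs_mul, abs_mul]
      exact mul_le_mul (hf1 S) (mul_le_mul (hCu S) (hCw S) (abs_nonneg _)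
        ((abs_nonneg _).trans (hCu S))) (mul_nonneg (abs_nonneg _) (abs_nonneg _)) zero_le_one
  set Z : ℝ := ∫ S, w S ∂(prior N L) with hZdef
  set M : ℝ := ∫ S, u S * w S ∂(prior N L) with hMdef
  have hZ : 0 < Z := Z_pos hN hH' Λ η
  have hMl : Real.exp (-δ) * Z ≤ M := by
    rw [hZdef, hMdef, ← integral_const_mul]
    exact integral_mono (hwi.const_mul _) huwi fun S =>
      mul_le_mul_of_nonneg_right (hul S) (hwpos S).le
  have hMu : M ≤ Real.exp δ * Z := by
    rw [hZdef, hMdef, ← integral_const_mul]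
    exact integral_mono huwi (hwi.const_mul _) fun S =>
      mul_le_mul_of_nonneg_right (huu S) (hwpos S).le
  have hM : 0 < M := lt_of_lt_of_le (mul_pos (Real.exp_pos _) hZ) hMl
  have e1 : gH H Λ η F = (∫ S, f S * (u S * w S) ∂(prior N L)) / M := by
    unfold gH
    have h1 : ∀ S, F (splice Λ S η) * Real.exp (H (splice Λ S η)) =
        Real.exp κ * (f S * (u S * w S)) := by
      intro S
      rw [hsplit S, hf]; ring
    have hn : ∫ S, F (splice Λ S η) * Real.exp (H (splice Λ S η)) ∂(prior N L) =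
        Real.exp κ * ∫ S, f S * (u S * w S) ∂(prior N L) := by
      rw [← integral_const_mul]
      exact integral_congr_ae (Filter.Eventually.of_forall fun S => h1 S)
    have hd : ∫ S, Real.exp (H (splice Λ S η)) ∂(prior N L) = Real.exp κ * M := by
      rw [hMdef, ← integral_const_mul]
      exact integral_congr_ae (Filter.Eventually.of_forall fun S => hsplit S)
    rw [hn, hd]
    exact mul_div_mul_left _ _ (Real.exp_pos κ).ne'
  have e2 : gH H' Λ η F = (∫ S, f S * w S ∂(prior N L)) / Z := rfl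
  have e3 : gH H Λ η F - gH H' Λ η F =
      (∫ S, f S * ((u S - M / Z) * w S) ∂(prior N L)) / M := by
    have h1 : ∫ S, f S * ((u S - M / Z) * w S) ∂(prior N L) =
        (∫ S, f S * (u S * w S) ∂(prior N L)) - M / Z * ∫ S, f S * w S ∂(prior N L) := by
      rw [← integral_const_mul, ← integral_sub hfuwi (hfwi.const_mul _)]
      congr 1
      funext S
      ring
    rw [h1, e1, e2]
    field_simp
  have hb : |∫ S, f S * ((u S - M / Z) * w S) ∂(prior N L)| ≤
      (Real.exp δ - Real.exp (-δ)) * Z := by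
    rw [← Real.norm_eq_abs, hZdef, ← integral_const_mul]
    refine norm_integral_le_of_norm_le (hwi.const_mul _) (Filter.Eventually.of_forall fun S => ?_)
    rw [Real.norm_eq_abs, abs_mul, abs_mul, abs_of_pos (hwpos S)]
    have h1 : |u S - M / Z| ≤ Real.exp δ - Real.exp (-δ) := by
      have h2 : Real.exp (-δ) ≤ M / Z := by rw [le_div_iff₀ hZ]; exact hMl
      have h3 : M / Z ≤ Real.exp δ := by rw [div_le_iff₀ hZ]; exact hMu
      rw [abs_le]
      constructor
      · linarith [hul S]
      · linarith [huu S]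
    have h4 : 0 ≤ |u S - M / Z| * w S := mul_nonneg (abs_nonneg _) (hwpos S).le
    calc |f S| * (|u S - M / Z| * w S) ≤ 1 * (|u S - M / Z| * w S) :=
          mul_le_mul_of_nonneg_right (hf1 S) h4
      _ ≤ _ := by
          rw [one_mul]
          exact mul_le_mul_of_nonneg_right h1 (hwpos S).le
  rw [e3, abs_div, abs_of_pos hM, div_le_iff₀ hM]
  refine hb.trans ?_
  have h5 : Real.exp δ - Real.exp (-δ) = (Real.exp (2 * δ) - 1) * Real.exp (-δ) := by
    rw [sub_mul, one_mul, ← Real.exp_add]
    congr 2; ring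
  rw [h5, mul_assoc]
  apply mul_le_mul_of_nonneg_left hMl
  have h6 : 0 ≤ δ := by
    haveI : Nonempty (Conf N L) := by
      by_contra hne
      rw [not_nonempty_iff] at hne
      have : (prior N L) Set.univ = 0 := by
        rw [Set.univ_eq_empty_iff.2 hne]; simp
      rw [hprob.measure_univ] at this
      exact one_ne_zero this
    exact (abs_nonneg _).trans (hδ (Classical.arbitrary _))
  have := Real.one_le_exp (x := 2 * δ) (by linarith)
  linarith

end Pool.Agent.H983R2.ONJ
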